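import Pool.Agent.Lib_helper21.Plichko.P2

set_option autoImplicit false

open Cardinal Set

universe u v

namespace Pool.Agent.Lib_helper21.Plichko

section comb

variable {W : Type v} [LinearOrder W] [WellFoundedLT W]

lemma exists_rec (W1 : ∀ w : W, #(Iio w) ≤ ℵ₁)
    (W2 : ∀ A : Set W, #A ≤ ℵ₁ → ∃ w, ∀ a ∈ A, a < w) (h : W → W) :
    ∃ t : W → W, ∀ i j, j < i → t j < t i ∧ h (t j) < t i := by
  have key : ∀ (i : W) (f : ∀ j, j < i → W), ∃ w, ∀ j (hj : j < i), f j hj < w ∧ h (f j hj) < w := by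
    intro i f
    have hA : #(Set.range (fun j : Iio i => f j.1 j.2) ∪ Set.range (fun j : Iio i => h (f j.1 j.2)) :
        Set W) ≤ ℵ₁ := by
      refine (Cardinal.mk_union_le _ _).trans ?_
      calc _ ≤ ℵ₁ + ℵ₁ := add_le_add (Cardinal.mk_range_le.trans (W1 i))
            (Cardinal.mk_range_le.trans (W1 i))
        _ = ℵ₁ := Cardinal.add_eq_self (Cardinal.aleph0_le_aleph 1)
    obtain ⟨w, hw⟩ := W2 _ hA
    exact ⟨w, fun j hj => ⟨hw _ (Or.inl ⟨⟨j, hj⟩, rfl⟩), hw _ (Or.inr ⟨⟨j, hj⟩, rfl⟩)⟩⟩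
  choose g hg using key
  let t : W → W := (wellFounded_lt (α := W)).fix (fun i f => g i f)
  have ht : ∀ i, t i = g i (fun j _ => t j) := fun i => WellFounded.fix_eq _ _ _
  refine ⟨t, fun i j hj => ?_⟩
  have := hg i (fun j _ => t j) j hj
  rw [← ht] at this
  exact this

lemma mk_W (W2 : ∀ A : Set W, #A ≤ ℵ₁ → ∃ w, ∀ a ∈ A, a < w) : ℵ₁ < #W := by
  by_contra hcon
  push Not at hcon
  obtain ⟨w, hw⟩ := W2 Set.univ (by simpa using hcon)
  exact lt_irrefl _ (hw w (mem_univ _))

/-- an unbounded set has uncountably many points in a suitable interval -/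
lemma exists_uncountable_Ioo (W2 : ∀ A : Set W, #A ≤ ℵ₁ → ∃ w, ∀ a ∈ A, a < w)
    (A : Set W) (hA : ∀ w, ∃ a ∈ A, w < a) (w : W) : ∃ w', w < w' ∧ ¬ (A ∩ Ioo w w').Countable := by
  have h1 : ℵ₁ ≤ #(A ∩ Ioi w : Set W) := by
    by_contra hcon
    push Not at hcon
    obtain ⟨w'', hw''⟩ := W2 _ hcon.le
    obtain ⟨a, ha, ha'⟩ := hA (max w w'')
    have := hw'' a ⟨ha, (le_max_left _ _).trans_lt ha'⟩
    exact lt_irrefl _ (this.trans ((le_max_right _ _).trans_lt ha'))
  obtain ⟨B, hB, hB'⟩ := (Cardinal.le_mk_iff_exists_subset).1 h1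
  obtain ⟨w', hw'⟩ := W2 B hB'.le
  have hunc : ¬ (A ∩ Ioo w w').Countable := by
    intro hc
    have hsub : B ⊆ A ∩ Ioo w w' := fun b hb => ⟨(hB hb).1, (hB hb).2, hw' b hb⟩
    have := (Cardinal.le_aleph0_iff_set_countable).2 (hc.mono hsub)
    rw [hB'] at this
    exact absurd this (not_le.2 Cardinal.aleph0_lt_aleph_one)
  refine ⟨w', ?_, hunc⟩
  by_contra hle
  push Not at hle
  apply hunc
  rw [Ioo_eq_empty (not_lt.2 hle)]
  simp

/-- a minimal point with uncountably many predecessors -/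
lemma exists_omega1 (W2 : ∀ A : Set W, #A ≤ ℵ₁ → ∃ w, ∀ a ∈ A, a < w) :
    ∃ i : W, ¬ (Iio i).Countable ∧ ∀ j < i, (Iio j).Countable := by
  have h1 : ∃ i : W, ¬ (Iio i).Countable := by
    obtain ⟨B, hB⟩ := (Cardinal.le_mk_iff_exists_set).1 (mk_W W2).le
    obtain ⟨w, hw⟩ := W2 B hB.le
    refine ⟨w, fun hc => ?_⟩
    have := (Cardinal.le_aleph0_iff_set_countable).2 (hc.mono (fun b hb => hw b hb : B ⊆ Iio w))
    rw [hB] at this
    exact absurd this (not_le.2 Cardinal.aleph0_lt_aleph_one)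
  let i := (wellFounded_lt (α := W)).min {i | ¬ (Iio i).Countable} h1
  refine ⟨i, (wellFounded_lt (α := W)).min_mem {i | ¬ (Iio i).Countable} h1, fun j hj => ?_⟩
  by_contra hcon
  exact (wellFounded_lt (α := W)).not_lt_min {i | ¬ (Iio i).Countable} hcon hj

lemma bounded_of_countable {i : W} (hi : ¬ (Iio i).Countable) (hi' : ∀ j < i, (Iio j).Countable)
    {J : Set W} (hJ : J.Countable) (hJi : J ⊆ Iio i) : ∃ k < i, ∀ j ∈ J, j < k := by
  have h1 : (⋃ j ∈ J, Iic j).Countable := by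
    apply hJ.biUnion
    intro j hj
    have : Iic j = insert j (Iio j) := by
      ext x; simp [le_iff_eq_or_lt]
    rw [this]
    exact (hi' j (hJi hj)).insert _
  by_contra hcon
  push Not at hcon
  apply hi
  refine h1.mono ?_
  intro k hk
  obtain ⟨j, hj, hkj⟩ := hcon k hk
  exact mem_biUnion hj hkj

end comb

section

variable {X : Type u} [NormedAddCommGroup X] [NormedSpace ℝ X]
variable {M : Set X} {F : X → X →L[ℝ] ℝ}

lemma Closed.iUnion {ι : Type*} [Nonempty ι] {E : ι → Set X} (hd : Directed (· ⊆ ·) E)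
    (h : ∀ i, Closed M F (E i)) : Closed M F (⋃ i, E i) := by
  refine ⟨iUnion_subset fun i => (h i).1, fun a ha => ?_⟩
  obtain ⟨i, hi⟩ := hd.exists_mem_subset_of_finset_subset_biUnion ha
  exact ((h i).2 a hi).trans (subset_iUnion E i)

lemma exists_countable_support (hM : Dense ((Submodule.span ℝ M : Submodule ℝ X) : Set X))
    (hFc : ∀ x, Set.Countable {m ∈ M | F x m ≠ 0}) (x : X) :
    ∃ S, Closed M F S ∧ S.Countable ∧ x ∈ closure ((Submodule.span ℝ S : Submodule ℝ X) : Set X) := by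
  obtain ⟨s, hs, hlim⟩ := mem_closure_iff_seq_limit.1 (hM x)
  have h1 : ∀ n, ∃ T : Finset X, (T : Set X) ⊆ M ∧ s n ∈ Submodule.span ℝ (T : Set X) :=
    fun n => Submodule.mem_span_finite_of_mem_span (hs n)
  choose T hT hT' using h1
  have hc : (⋃ n, (T n : Set X)).Countable := countable_iUnion fun n => (T n).countable_toSet
  obtain ⟨E, hE, hTE, hEc⟩ := exists_closed (M := M) (F := F) (iUnion_subset hT) le_rfl
    ((Cardinal.le_aleph0_iff_set_countable).2 hc) hFc
  refine ⟨E, hE, (Cardinal.le_aleph0_iff_set_countable).1 hEc, ?_⟩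
  refine mem_closure_iff_seq_limit.2 ⟨s, fun n => ?_, hlim⟩
  exact Submodule.span_mono ((subset_iUnion (fun n => (T n : Set X)) n).trans hTE) (hT' n)

/-- abstract system of commuting projections. -/
structure Proj (M : Set X) (F : X → X →L[ℝ] ℝ) (c : ℝ) (P : Set X → X →L[ℝ] X) : Prop where
  fix : ∀ E, Closed M F E → ∀ m ∈ E, P E m = m
  kill : ∀ E, Closed M F E → ∀ m ∈ M, m ∉ E → P E m = 0
  bound : ∀ E, Closed M F E → ∀ x, ‖P E x‖ ≤ c⁻¹ * ‖x‖

lemma exists_Proj [CompleteSpace X] (hF1 : ∀ x, ‖F x‖ ≤ 1)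
    {c : ℝ} (hc : 0 < c) (hFn : ∀ x, c * ‖x‖ ≤ |F x x|)
    (hM : Dense ((Submodule.span ℝ M : Submodule ℝ X) : Set X)) : ∃ P, Proj M F c P := by
  classical
  have h := fun (E : Set X) (hE : Closed M F E) => exists_proj hF1 hc hFn hM hE
  choose P hP1 hP2 hP3 using h
  refine ⟨fun E => if hE : Closed M F E then P E hE else 0, ?_, ?_, ?_⟩
  · intro E hE m hm
    simp only [hE, dite_true]
    exact hP1 E hE m hm
  · intro E hE m hm hmE
    simp only [hE, dite_true]
    exact hP2 E hE m hm hmE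
  · intro E hE x
    simp only [hE, dite_true]
    exact hP3 E hE x

variable {c : ℝ} {P : Set X → X →L[ℝ] X}

lemma Proj.comp (hP : Proj M F c P) (hM : Dense ((Submodule.span ℝ M : Submodule ℝ X) : Set X))
    {E E' : Set X} (hE : Closed M F E) (hE' : Closed M F E') (x : X) :
    P E (P E' x) = P (E ∩ E') x := by
  have : (P E).comp (P E') = P (E ∩ E') := by
    apply ContinuousLinearMap.ext_on hM
    intro m hm
    simp only [ContinuousLinearMap.comp_apply]
    by_cases h' : m ∈ E'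
    · rw [hP.fix E' hE' m h']
      by_cases h : m ∈ E
      · rw [hP.fix E hE m h, hP.fix _ (hE.inter hE') m ⟨h, h'⟩]
      · rw [hP.kill E hE m hm h, hP.kill _ (hE.inter hE') m hm (fun h2 => h h2.1)]
    · rw [hP.kill E' hE' m hm h', map_zero, hP.kill _ (hE.inter hE') m hm (fun h2 => h' h2.2)]
  rw [← this]; rfl

lemma Proj.comm (hP : Proj M F c P) (hM : Dense ((Submodule.span ℝ M : Submodule ℝ X) : Set X))
    {E E' : Set X} (hE : Closed M F E) (hE' : Closed M F E') (x : X) :
    P E (P E' x) = P E' (P E x) := by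
  rw [hP.comp hM hE hE', hP.comp hM hE' hE, inter_comm]

lemma Proj.fix_closure (hP : Proj M F c P) {E : Set X} (hE : Closed M F E) {x : X}
    (hx : x ∈ closure ((Submodule.span ℝ E : Submodule ℝ X) : Set X)) : P E x = x := by
  have hcl : IsClosed {x : X | P E x = x} := isClosed_eq (by fun_prop) continuous_id
  have hsub : ((Submodule.span ℝ E : Submodule ℝ X) : Set X) ⊆ {x : X | P E x = x} := by
    intro x hx
    induction hx using Submodule.span_induction with
    | mem x hx => exact hP.fix E hE x hx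
    | zero => simp
    | add x y _ _ hx hy => 
      simp only [mem_setOf_eq] at hx hy ⊢
      rw [map_add, hx, hy]
    | smul r x _ hx =>
      simp only [mem_setOf_eq] at hx ⊢
      rw [map_smul, hx]
  exact hcl.closure_subset_iff.2 hsub hx

lemma Proj.mem_closure (hP : Proj M F c P)
    (hM : Dense ((Submodule.span ℝ M : Submodule ℝ X) : Set X)) {E : Set X} (hE : Closed M F E)
    (x : X) : P E x ∈ closure ((Submodule.span ℝ E : Submodule ℝ X) : Set X) := by
  have h1 : ∀ y ∈ ((Submodule.span ℝ M : Submodule ℝ X) : Set X),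
      P E y ∈ ((Submodule.span ℝ E : Submodule ℝ X) : Set X) := by
    intro y hy
    induction hy using Submodule.span_induction with
    | mem m hm =>
      by_cases h : m ∈ E
      · rw [hP.fix E hE m h]; exact Submodule.subset_span h
      · rw [hP.kill E hE m hm h]; exact Submodule.zero_mem _
    | zero => rw [map_zero]; exact Submodule.zero_mem _
    | add x y _ _ hx hy => rw [map_add]; exact Submodule.add_mem _ hx hy
    | smul r x _ hx => rw [map_smul]; exact Submodule.smul_mem _ _ hx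
  exact map_mem_closure (P E).continuous (hM x) h1

end

end Pool.Agent.Lib_helper21.Plichko
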