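import Pool.Agent.Lib_helper21.Plichko.P3

set_option autoImplicit false

open Cardinal Set

universe u v

namespace Pool.Agent.Lib_helper21.Plichko

section

variable {X : Type u} [NormedAddCommGroup X] [NormedSpace ℝ X] [CompleteSpace X]
variable {M : Set X} {F : X → X →L[ℝ] ℝ}
variable {W : Type v} [LinearOrder W] [WellFoundedLT W]

theorem main_abstract
    (hM : Dense ((Submodule.span ℝ M : Submodule ℝ X) : Set X))
    (hFc : ∀ x, Set.Countable {m ∈ M | F x m ≠ 0}) (hF1 : ∀ x, ‖F x‖ ≤ 1)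
    {c : ℝ} (hc : 0 < c) (hFn : ∀ x, c * ‖x‖ ≤ |F x x|)
    (W1 : ∀ w : W, #(Iio w) ≤ ℵ₁)
    (W2 : ∀ A : Set W, #A ≤ ℵ₁ → ∃ w, ∀ a ∈ A, a < w)
    (e : W → X) (C d : ℝ) (hd : 0 < d)
    (upper : ∀ (n : ℕ) (δ γ : ℕ → W), (∀ i, δ i < γ i) → (∀ i, γ i < δ (i+1)) →
      ‖∑ i ∈ Finset.range n, (e (δ i) - e (γ i))‖ ≤ C)
    (lower : ∀ (n : ℕ) (δ : ℕ → W), StrictMono δ →
      d * n ≤ ‖∑ i ∈ Finset.range n, (e (δ (n + i)) - e (δ i))‖) : False := by
  classical
  obtain ⟨P, hP⟩ := exists_Proj hF1 hc hFn hM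
  choose S hSc hSct hSe using fun w => exists_countable_support hM hFc (e w)
  -- the chains
  have hUM : ∀ A : Set W, (⋃ v ∈ A, S v) ⊆ M := fun A => iUnion₂_subset fun v _ => (hSc v).1
  let E : W → Set X := fun w => cl M F (⋃ v ∈ Iio w, S v)
  let E' : W → Set X := fun w => cl M F (⋃ v ∈ Iic w, S v)
  have hE : ∀ w, Closed M F (E w) := fun w => cl_closed (hUM _)
  have hE' : ∀ w, Closed M F (E' w) := fun w => cl_closed (hUM _)
  have hSE : ∀ v w, v < w → S v ⊆ E w := fun v w hvw =>
    (subset_biUnion_of_mem (u := S) (show v ∈ Iio w from hvw)).trans subset_cl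
  have hSE' : ∀ w, S w ⊆ E' w := fun w =>
    (subset_biUnion_of_mem (u := S) (show w ∈ Iic w from le_refl w)).trans subset_cl
  have hEE' : ∀ w, E w ⊆ E' w := fun w => cl_min (hE' w) (by
    refine (iUnion₂_subset fun v hv => ?_)
    exact (subset_biUnion_of_mem (u := S) (show v ∈ Iic w from le_of_lt hv)).trans subset_cl)
  have hE'E : ∀ v w, v < w → E' v ⊆ E w := fun v w hvw => cl_min (hE w) (by
    refine (iUnion₂_subset fun u hu => ?_)
    exact hSE u w (lt_of_le_of_lt hu hvw))
  have hEmono : ∀ v w, v ≤ w → E v ⊆ E w := fun v w hvw => cl_min (hE w) (by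
    refine (iUnion₂_subset fun u hu => ?_)
    exact hSE u w (lt_of_lt_of_le hu hvw))
  have hEcard : ∀ w, #(E w) ≤ ℵ₁ := by
    intro w
    have h1 : #(⋃ v ∈ Iio w, S v : Set X) ≤ ℵ₁ := by
      have h0 : Cardinal.lift.{v} #(⋃ v ∈ Iio w, S v : Set X) ≤ Cardinal.lift.{v} ℵ₁ := by
        refine (Cardinal.mk_biUnion_le_lift _ _).trans ?_
        calc Cardinal.lift.{u} #(Iio w) * ⨆ v : Iio w, Cardinal.lift.{v} #(S v.1)
            ≤ Cardinal.lift.{u} ℵ₁ * ℵ₀ := by
              gcongr
              · exact Cardinal.lift_le.2 (W1 w)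
              · refine ciSup_le' fun v => ?_
                rw [Cardinal.lift_le_aleph0]
                exact (Cardinal.le_aleph0_iff_set_countable).2 (hSct _)
          _ = ℵ₁ * ℵ₀ := by rw [Cardinal.lift_aleph, Ordinal.lift_one]
          _ = ℵ₁ := Cardinal.mul_aleph0_eq (Cardinal.aleph0_le_aleph 1)
          _ = Cardinal.lift.{v} ℵ₁ := by rw [Cardinal.lift_aleph, Ordinal.lift_one]
      exact Cardinal.lift_le.1 h0
    obtain ⟨E0, hE0, hsub, hcard⟩ := exists_closed (M := M) (F := F) (hUM (Iio w))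
      (Cardinal.aleph0_le_aleph 1) h1 hFc
    exact (Cardinal.mk_le_mk_of_subset (cl_min hE0 hsub)).trans hcard
  -- Step 1: pressing down
  have step1 : ∃ b : W, ∀ w, ∃ a, w < a ∧ b < a ∧ P (E a) (e a) = P (E b) (e a) := by
    by_contra hcon
    push Not at hcon
    choose h hh using hcon
    obtain ⟨t, ht⟩ := exists_rec W1 W2 h
    obtain ⟨i1, hi1, hi1'⟩ := exists_omega1 W2
    have hub : ∃ w : W, w ∈ {w | ∀ j < i1, t j < w} := by
      obtain ⟨w, hw⟩ := W2 (t '' Iio i1) (Cardinal.mk_image_le.trans (W1 i1))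
      exact ⟨w, fun j hj => hw _ ⟨j, hj, rfl⟩⟩
    let α := (wellFounded_lt (α := W)).min {w | ∀ j < i1, t j < w} hub
    have hα : ∀ j < i1, t j < α := (wellFounded_lt (α := W)).min_mem {w | ∀ j < i1, t j < w} hub
    have hα' : ∀ v < α, ∃ j < i1, v ≤ t j := by
      intro v hv
      by_contra hcon
      push Not at hcon
      exact (wellFounded_lt (α := W)).not_lt_min {w | ∀ j < i1, t j < w} hcon hv
    have hnext : ∀ j < i1, ∃ j', j < j' ∧ j' < i1 := by
      intro j hj
      obtain ⟨k, hk, hk'⟩ := bounded_of_countable hi1 hi1' (J := {j}) (by simp) (by simpa using hj)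
      exact ⟨k, hk' j rfl, hk⟩
    -- E α is the union
    have hne : Nonempty (Iio i1) := by
      by_contra hemp
      rw [not_nonempty_iff] at hemp
      exact hi1 (Set.countable_coe_iff.1 inferInstance)
    have hUnion : E α ⊆ ⋃ j : Iio i1, E (t j) := by
      apply cl_min
      · apply Closed.iUnion
        · intro j k
          rcases le_total (t j) (t k) with hjk | hjk
          · exact ⟨k, hEmono _ _ hjk, subset_rfl⟩
          · exact ⟨j, subset_rfl, hEmono _ _ hjk⟩
        · exact fun j => hE _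
      · refine iUnion₂_subset fun v hv => ?_
        obtain ⟨j, hj, hvj⟩ := hα' v hv
        obtain ⟨j', hjj', hj'⟩ := hnext j hj
        exact (hSE v (t j') (hvj.trans_lt (ht j' j hjj').1)).trans
          (subset_iUnion (fun j : Iio i1 => E (t j)) ⟨j', hj'⟩)
    -- countable part bounded
    have hbd : ∃ k < i1, S α ∩ E α ⊆ E (t k) := by
      have hx : ∀ x : (S α ∩ E α : Set X), ∃ j : Iio i1, (x : X) ∈ E (t j) := fun x =>
        mem_iUnion.1 (hUnion x.2.2)
      choose f hf using hx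
      have hct : (S α ∩ E α).Countable := (hSct α).mono inter_subset_left
      have : Countable (S α ∩ E α : Set X) := hct
      obtain ⟨k, hk, hk'⟩ := bounded_of_countable hi1 hi1'
        (J := Set.range (fun x => (f x : W))) (Set.countable_range _)
        (by rintro _ ⟨x, rfl⟩; exact (f x).2)
      refine ⟨k, hk, fun x hx => ?_⟩
      have h1 := hk' _ ⟨⟨x, hx⟩, rfl⟩
      exact hEmono _ _ (ht k _ h1).1.le (hf ⟨x, hx⟩)
    obtain ⟨k, hk, hkS⟩ := hbd
    obtain ⟨k', hkk', hk'⟩ := hnext k hk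
    have h1 : h (t k) < α := (ht k' k hkk').2.trans (hα k' hk')
    apply hh (t k) α h1 (hα k hk)
    have h2 : E α ∩ S α = E (t k) ∩ S α := by
      apply subset_antisymm
      · exact fun x hx => ⟨hkS ⟨hx.2, hx.1⟩, hx.2⟩
      · exact fun x hx => ⟨hEmono _ _ (hα k hk).le hx.1, hx.2⟩
    have h3 : e α = P (S α) (e α) := (hP.fix_closure (hSc α) (hSe α)).symm
    calc P (E α) (e α) = P (E α) (P (S α) (e α)) := by rw [← h3]
      _ = P (E α ∩ S α) (e α) := hP.comp hM (hE _) (hSc _) _
      _ = P (E (t k) ∩ S α) (e α) := by rw [h2]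
      _ = P (E (t k)) (P (S α) (e α)) := (hP.comp hM (hE _) (hSc _) _).symm
      _ = P (E (t k)) (e α) := by rw [← h3]
  obtain ⟨b, hb⟩ := step1
  -- Step 2: almost constant
  have step2 : ∀ ε > 0, ∃ z : X, ∀ w, ∃ a, w < a ∧ b < a ∧ P (E a) (e a) = P (E b) (e a) ∧
      ‖P (E b) (e a) - z‖ ≤ ε := by
    intro ε hε
    by_contra hcon
    push Not at hcon
    choose f hf using hcon
    have hcard : #(f '' (QS (E b))) ≤ ℵ₁ := by
      have h0 : Cardinal.lift.{u} #(f '' (QS (E b))) ≤ Cardinal.lift.{u} ℵ₁ := by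
        refine Cardinal.mk_image_le_lift.trans ?_
        calc Cardinal.lift.{v} #(QS (E b)) ≤ Cardinal.lift.{v} ℵ₁ :=
              Cardinal.lift_le.2 (mk_QS_le (Cardinal.aleph0_le_aleph 1) (hEcard b))
          _ = Cardinal.lift.{u} ℵ₁ := by
              rw [Cardinal.lift_aleph, Cardinal.lift_aleph, Ordinal.lift_one, Ordinal.lift_one]
      exact Cardinal.lift_le.1 h0
    obtain ⟨w, hw⟩ := W2 _ hcard
    obtain ⟨a, hwa, hba, ha⟩ := hb w
    have h1 : P (E b) (e a) ∈ closure (QS (E b)) := by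
      have h2 := hP.mem_closure hM (hE b) (e a)
      have h3 := closure_minimal (span_subset_closure_QS (E b)) isClosed_closure
      exact h3 h2
    obtain ⟨z, hz, hz'⟩ := Metric.mem_closure_iff.1 h1 ε hε
    have h4 := hf z a ((hw _ ⟨z, hz, rfl⟩).trans hwa) hba ha
    rw [dist_eq_norm] at hz'
    linarith
  -- choice of epsilon
  set lam : ℝ := c⁻¹ with hlam
  have hlam0 : 0 < lam := inv_pos.2 hc
  set ε : ℝ := d / (4 * (2 * lam + 1)) with hεdef
  have hε : 0 < ε := by positivity
  obtain ⟨z, hz⟩ := step2 ε hε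
  let A : Set W := {a | b < a ∧ P (E a) (e a) = P (E b) (e a) ∧ ‖P (E b) (e a) - z‖ ≤ ε}
  have hAun : ∀ w, ∃ a ∈ A, w < a := fun w => by
    obtain ⟨a, h1, h2, h3, h4⟩ := hz w
    exact ⟨a, ⟨h2, h3, h4⟩, h1⟩
  -- Step 3: the sequence δ
  choose nx hnx hnxA using exists_uncountable_Ioo W2 A hAun
  choose pk hpkA hpk using hAun
  let δ : ℕ → W := fun n => Nat.rec (pk b) (fun _ w => pk (nx w)) n
  have hδA : ∀ n, δ n ∈ A := by
    intro n
    cases n with
    | zero => exact hpkA _
    | succ n => exact hpkA _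
  have hδs : ∀ n, nx (δ n) < δ (n+1) := fun n => hpk _
  have hδmono : StrictMono δ := strictMono_nat_of_lt_succ fun n => (hnx _).trans (hδs n)
  -- countable closed set
  have hTM : (⋃ n, S (δ n)) ⊆ M := iUnion_subset fun n => (hSc _).1
  obtain ⟨T, hTc, hTsub, hTcard⟩ := exists_closed (M := M) (F := F) hTM le_rfl
    ((Cardinal.le_aleph0_iff_set_countable).2 (countable_iUnion fun n => hSct (δ n))) hFc
  have hTct : T.Countable := (Cardinal.le_aleph0_iff_set_countable).1 hTcard
  -- bad set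
  let Bad : Set W := {w | (T ∩ (E' w \ E w)).Nonempty}
  have hBad : Bad.Countable := by
    have hch : ∀ w : Bad, ∃ x : T, (x : X) ∈ E' w \ E w := by
      rintro ⟨w, x, hx, hx'⟩
      exact ⟨⟨x, hx⟩, hx'⟩
    choose f hf using hch
    have : Countable T := hTct
    have hinj : Function.Injective f := by
      intro v w hvw
      rcases lt_trichotomy (v : W) (w : W) with hlt | heq | hgt
      · exact absurd (hE'E _ _ hlt (hvw ▸ (hf v).1)) (hf w).2
      · exact Subtype.ext heq
      · have h1 := (hf w).1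
        rw [← hvw] at h1
        exact absurd (hE'E _ _ hgt h1) (hf v).2
    exact Set.countable_coe_iff.1 hinj.countable
  have hγ : ∀ n, ∃ g, g ∈ A ∧ δ n < g ∧ g < δ (n+1) ∧ g ∉ Bad := by
    intro n
    by_contra hcon
    push Not at hcon
    apply hnxA (δ n)
    refine hBad.mono ?_
    intro g hg
    exact hcon g hg.1 hg.2.1 (hg.2.2.trans (hδs n))
  choose γ hγA hγ1 hγ2 hγB using hγ
  -- the vectors
  let u : W → X := fun a => P (E b) (e a)
  let w : W → X := fun a => e a - u a
  have hPTδ : ∀ n, P T (w (δ n)) = w (δ n) := by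
    intro n
    have h1 : P T (e (δ n)) = e (δ n) := by
      apply hP.fix_closure hTc
      exact closure_mono (Submodule.span_mono ((subset_iUnion (fun n => S (δ n)) n).trans hTsub))
        (hSe (δ n))
    have h2 : P T (u (δ n)) = u (δ n) := by
      show P T (P (E b) (e (δ n))) = P (E b) (e (δ n))
      rw [hP.comm hM hTc (hE b), h1]
    simp only [w, map_sub, h1, h2]
  have hPTγ : ∀ n, P T (w (γ n)) = 0 := by
    intro n
    have h1 : e (γ n) = P (E' (γ n)) (e (γ n)) := by
      symm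
      apply hP.fix_closure (hE' _)
      exact closure_mono (Submodule.span_mono (hSE' _)) (hSe _)
    have h2 : u (γ n) = P (E (γ n)) (e (γ n)) := (hγA n).2.1.symm
    have h3 : T ∩ E' (γ n) = T ∩ E (γ n) := by
      apply subset_antisymm
      · intro x hx
        refine ⟨hx.1, ?_⟩
        by_contra hxE
        exact hγB n ⟨x, hx.1, hx.2, hxE⟩
      · exact fun x hx => ⟨hx.1, hEE' _ hx.2⟩
    have h4 : P T (e (γ n)) = P (T ∩ E' (γ n)) (e (γ n)) := by
      conv_lhs => rw [h1]
      exact hP.comp hM hTc (hE' _) _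
    have h5 : P T (u (γ n)) = P (T ∩ E (γ n)) (e (γ n)) := by
      rw [h2]; exact hP.comp hM hTc (hE _) _
    simp only [w, map_sub, h4, h5, h3, sub_self]
  have hu : ∀ a ∈ A, ∀ a' ∈ A, ‖u a - u a'‖ ≤ 2 * ε := by
    intro a ha a' ha'
    have h1 := ha.2.2
    have h2 := ha'.2.2
    calc ‖u a - u a'‖ = ‖(u a - z) - (u a' - z)‖ := by congr 1; abel
      _ ≤ ‖u a - z‖ + ‖u a' - z‖ := norm_sub_le _ _
      _ ≤ 2 * ε := by simp only [u] at *; linarith
  -- block estimate
  have block : ∀ n s : ℕ, ‖∑ i ∈ Finset.range n, w (δ (s + i))‖ ≤ lam * (C + n * (2 * ε)) := by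
    intro n s
    have h1 : P T (∑ i ∈ Finset.range n, (w (δ (s + i)) - w (γ (s + i)))) =
        ∑ i ∈ Finset.range n, w (δ (s + i)) := by
      rw [map_sum]
      apply Finset.sum_congr rfl
      intro i _
      rw [map_sub, hPTδ, hPTγ, sub_zero]
    rw [← h1]
    refine (hP.bound T hTc _).trans ?_
    gcongr
    have h2 : ∑ i ∈ Finset.range n, (w (δ (s + i)) - w (γ (s + i))) =
        ∑ i ∈ Finset.range n, (e (δ (s + i)) - e (γ (s + i))) -
        ∑ i ∈ Finset.range n, (u (δ (s + i)) - u (γ (s + i))) := by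
      rw [← Finset.sum_sub_distrib]
      apply Finset.sum_congr rfl
      intro i _
      simp only [w]; abel
    rw [h2]
    refine (norm_sub_le _ _).trans ?_
    apply add_le_add
    · exact upper n (fun i => δ (s + i)) (fun i => γ (s + i)) (fun i => hγ1 _) (fun i => hγ2 _)
    · refine (norm_sum_le _ _).trans ?_
      calc ∑ i ∈ Finset.range n, ‖u (δ (s + i)) - u (γ (s + i))‖
          ≤ ∑ i ∈ Finset.range n, 2 * ε := Finset.sum_le_sum fun i _ => hu _ (hδA _) _ (hγA _)
        _ = n * (2 * ε) := by simp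
  have final : ∀ n : ℕ, d * n ≤ 2 * (lam * (C + n * (2 * ε))) + n * (2 * ε) := by
    intro n
    refine (lower n δ hδmono).trans ?_
    have h2 : ∑ i ∈ Finset.range n, (e (δ (n + i)) - e (δ i)) =
        ∑ i ∈ Finset.range n, w (δ (n + i)) - ∑ i ∈ Finset.range n, w (δ (0 + i)) +
        ∑ i ∈ Finset.range n, (u (δ (n + i)) - u (δ i)) := by
      rw [← Finset.sum_sub_distrib, ← Finset.sum_add_distrib]
      apply Finset.sum_congr rfl
      intro i _
      simp only [w, zero_add]; abel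
    rw [h2]
    refine (norm_add_le _ _).trans ?_
    apply add_le_add
    · refine (norm_sub_le _ _).trans ?_
      have := block n n
      have := block n 0
      linarith
    · refine (norm_sum_le _ _).trans ?_
      calc ∑ i ∈ Finset.range n, ‖u (δ (n + i)) - u (δ i)‖
          ≤ ∑ i ∈ Finset.range n, 2 * ε := Finset.sum_le_sum fun i _ => hu _ (hδA _) _ (hδA _)
        _ = n * (2 * ε) := by simp
  -- contradiction
  have hεeq : ε * (4 * (2 * lam + 1)) = d := by
    rw [hεdef]; field_simp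
  obtain ⟨n, hn⟩ := exists_nat_gt (4 * lam * C / d)
  have h1 := final n
  have h2 : 4 * lam * C < n * d := by
    rwa [div_lt_iff₀ hd] at hn
  nlinarith [h1, h2, hεeq]

end

end Pool.Agent.Lib_helper21.Plichko
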